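import Pool.Agent.L5helper51.WK.Chain
import Pool.Agent.L5helper51.WF.Super
import Pool.Agent.L5helper51.WG.Scan
import Pool.Agent.L5helper58.KS.Emb

/-!
# The `k`-step halting problem for algorithms with wide nondecreasing instructions
-/

namespace Pool.Agent.L5helper51.WH

open Finset
open Pool.Agent.L5helper51.WG (Mem Ins Alg Stp scan rd execs exists_ins ops ops_run ops_leaves
  ops_steps)
open Pool.Agent.L5helper51.WK (inp clique_lower)
open Pool.Agent.L5helper58.KS (Trans Machine Config Step Halts Tab machineOf)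

/-- The bits of a table as real numbers. -/
noncomputable def val {n : ℕ} (x : Tab n → Bool) (e : Tab n) : ℝ := if x e = true then 1 else 0

/-- `o` is a right answer: it is `true` if the machine halts after at most `k` steps, and `false` if
the machine never halts; if the machine can halt, but only later, both answers are right. -/
def Right {n : ℕ} (k : ℕ) (x : Tab n → Bool) (o : Bool) : Prop :=
  (Halts (machineOf x) k → o = true) ∧ ((∀ m, ¬ Halts (machineOf x) m) → o = false)

open Classical in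
/-- Some probabilistic algorithm whose instructions read and write `w` numbers, with at most `ℓ`
leaves and at most `g` instructions on each path, answers right with probability at least
`1 / 2 + 1 / q` for every machine with `n` states and `n` symbols. -/
def Decides (k n w ℓ g q : ℕ) : Prop :=
  ∃ (Ω : Type) (_ : Fintype Ω) (p : Ω → ℝ) (A : Ω → Alg (Tab n) w Bool) (σ : Ω → Mem w),
    (∀ ω, 0 ≤ p ω) ∧ ∑ ω, p ω = 1 ∧ (∀ ω, (A ω).leaves ≤ ℓ ∧ (A ω).steps ≤ g) ∧
    ∀ x : Tab n → Bool, (1 : ℝ) / 2 + 1 / q ≤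
      ∑ ω ∈ univ.filter (fun ω => Right k x ((A ω).run (val x) (σ ω)).1), p ω

/-- The first bound. -/
theorem lower (r k : ℕ) (hr : 2 ≤ r) (hk : (2 * r + 1) ^ 2 ≤ k + 2) :
    ∃ K : ℕ, 1 ≤ K ∧ ∀ n w ℓ g q : ℕ, 1 ≤ w → 1 ≤ g → 1 ≤ q → Decides k n w ℓ g q →
      n ^ (2 * r) ≤ K * (Nat.log 2 n + 1) ^ (4 * r ^ 2) * w ^ r * g * (ℓ * q) ^ (4 * r) := by
  classical
  obtain ⟨K0, hK1, hK⟩ := clique_lower (2 * r - 1) r (by omega) (by omega)
  have e1 : 2 * r - 1 + 1 = 2 * r := by omega
  rw [e1] at hK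
  refine ⟨(12 * r + 2) ^ (2 * r) * K0, Nat.mul_pos (by positivity) hK1, ?_⟩
  intro n w ℓ g q hw hg hq hD
  obtain ⟨Ω, hΩ, p, A, σ, hp, hp1, hA, hcorr⟩ := hD
  have hℓ : 1 ≤ ℓ := by
    obtain ⟨ω, _⟩ : ∃ ω : Ω, True := by
      by_contra hcon
      have : IsEmpty Ω := ⟨fun ω => hcon ⟨ω, trivial⟩⟩
      rw [Fintype.sum_empty] at hp1
      norm_num at hp1
    exact (A ω).leaves_pos.trans_le (hA ω).1
  by_cases hn : n < 12 * r + 2
  · have h1 : n ^ (2 * r) ≤ (12 * r + 2) ^ (2 * r) := Nat.pow_le_pow_left hn.le _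
    have h2 : 1 ≤ K0 * (Nat.log 2 n + 1) ^ (4 * r ^ 2) * w ^ r * g * (ℓ * q) ^ (4 * r) := by
      have : 1 ≤ ℓ * q := Nat.mul_pos hℓ hq
      have h3 : 1 ≤ K0 * (Nat.log 2 n + 1) ^ (4 * r ^ 2) * w ^ r * g :=
        Nat.mul_pos (Nat.mul_pos (Nat.mul_pos hK1 (by positivity)) (by positivity)) hg
      exact Nat.mul_pos h3 (by positivity)
    calc n ^ (2 * r) ≤ (12 * r + 2) ^ (2 * r) * 1 := by rw [mul_one]; exact h1
      _ ≤ (12 * r + 2) ^ (2 * r) * (K0 * (Nat.log 2 n + 1) ^ (4 * r ^ 2) * w ^ r * g *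
          (ℓ * q) ^ (4 * r)) := Nat.mul_le_mul_left _ h2
      _ = _ := by ring
  push Not at hn
  obtain ⟨m, hmn⟩ : ∃ m, m = (n - (4 * r + 2)) / (2 * r) := ⟨_, rfl⟩
  have hmle : m * (2 * r) ≤ n - (4 * r + 2) := by
    rw [hmn]
    exact Nat.div_mul_le_self _ _
  have hmlt : n - (4 * r + 2) < m * (2 * r) + 2 * r := by
    have := Nat.lt_div_mul_add (a := n - (4 * r + 2)) (b := 2 * r) (by omega)
    rw [hmn]
    exact this
  have hemb : 2 * r * m + 2 * (2 * r) + 2 ≤ n := by
    rw [mul_comm (2 * r) m]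
    omega
  have hm0 : 0 < m := by
    rcases Nat.eq_zero_or_pos m with h0 | h0
    · rw [h0] at hmlt
      omega
    · exact h0
  have hnm : n ≤ (4 * r) * m := by
    have : (4 * r) * m = m * (2 * r) + m * (2 * r) := by ring
    omega
  obtain ⟨iQ, iA, hQ, hA', hQ0, hQ1, hA0⟩ := Pool.Agent.L5helper58.KS.exists_embeddings hemb
  -- the bits of a graph
  set Y : SimpleGraph (Fin m) → Sym2 (Fin m) → Bool := fun G e => decide (e ∈ G.edgeSet) with hY
  have hgr : ∀ G : SimpleGraph (Fin m), Pool.Agent.L5helper58.KS.gr (Y G) = G := by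
    intro G
    rw [hY, Pool.Agent.L5helper58.KS.gr]
    have : {e | decide (e ∈ G.edgeSet) = true} = G.edgeSet := by
      ext e
      simp
    rw [this]
    exact SimpleGraph.fromEdgeSet_edgeSet G
  have hlab : ∀ e : Tab n, ∃ s : (Fin m × Fin m) ⊕ ℝ, ∀ G : SimpleGraph (Fin m),
      inp (fun _ : Unit => s) G () = val (Pool.Agent.L5helper58.KS.tabOf iQ iA (Y G)) e := by
    intro e
    rcases Pool.Agent.L5helper58.KS.tabOf_proj hQ hA' e with ⟨b, hb⟩ | ⟨e', he'⟩
    · refine ⟨.inr (if b = true then 1 else 0), fun G => ?_⟩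
      rw [val, hb]
      rfl
    · obtain ⟨u, v, huv⟩ : ∃ u v, e' = s(u, v) := by
        induction e' using Sym2.ind with
        | h u v => exact ⟨u, v, rfl⟩
      refine ⟨.inl (u, v), fun G => ?_⟩
      rw [val, he', hY, huv, inp]
      simp only [SimpleGraph.mem_edgeSet, decide_eq_true_eq]
  choose lab0 hlab using hlab
  have hinp : ∀ G : SimpleGraph (Fin m), inp lab0 G =
      val (Pool.Agent.L5helper58.KS.tabOf iQ iA (Y G)) := by
    intro G
    funext e
    rw [← hlab e G]
    rfl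
  have h1 := hK m w g ℓ q hw hg hq lab0 p hp hp1 A σ hA (by
    intro G
    refine (hcorr (Pool.Agent.L5helper58.KS.tabOf iQ iA (Y G))).trans ?_
    rw [sum_filter, hinp]
    apply sum_le_sum
    intro ω _
    have hcl : ∀ k' : ℕ, k ≤ k' →
        (Halts (machineOf (Pool.Agent.L5helper58.KS.tabOf iQ iA (Y G))) k' ↔
        ¬ G.CliqueFree (2 * r)) := by
      intro k' hk'
      have := Pool.Agent.L5helper58.KS.clique_iff_halts (κ := 2 * r) (by omega) hm0 hQ hA' hQ0 hQ1
        hA0 (Y G) (k := k') (by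
          have : (2 * r + 1) ^ 2 = 2 * r * (2 * r) + 2 * (2 * r) + 1 := by ring
          omega)
      rw [hgr] at this
      exact this
    by_cases h2 : Right k (Pool.Agent.L5helper58.KS.tabOf iQ iA (Y G))
        ((A ω).run (val (Pool.Agent.L5helper58.KS.tabOf iQ iA (Y G))) (σ ω)).1
    · rw [if_pos h2]
      have h3 : ((A ω).run (val (Pool.Agent.L5helper58.KS.tabOf iQ iA (Y G))) (σ ω)).1 = true ↔
          ¬ G.CliqueFree (2 * r) := by
        constructor
        · intro h4 h5
          have h6 := h2.2 (by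
            intro m' hm'
            have h7 : Halts (machineOf (Pool.Agent.L5helper58.KS.tabOf iQ iA (Y G))) (max k m') := by
              obtain ⟨l, hl, h⟩ := hm'
              exact ⟨l, hl.trans (le_max_right _ _), h⟩
            exact (hcl _ (le_max_left _ _)).1 h7 h5)
          rw [h6] at h4
          exact Bool.false_ne_true h4
        · intro h4
          exact h2.1 ((hcl k le_rfl).2 h4)
      rw [if_pos h3, mul_one]
    · rw [if_neg h2]
      split_ifs
      · rw [mul_one]
        exact hp ω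
      · rw [mul_zero])
  have e2 : (2 * r) ^ 2 = 4 * r ^ 2 := by ring
  have e3 : 2 * (2 * r) = 4 * r := by ring
  rw [e2, e3] at h1
  have hlog : Nat.log 2 m + 1 ≤ Nat.log 2 n + 1 := by
    have : m ≤ n := by
      have : m ≤ m * (2 * r) := Nat.le_mul_of_pos_right _ (by omega)
      omega
    exact Nat.succ_le_succ (Nat.log_mono_right this)
  calc n ^ (2 * r) ≤ ((4 * r) * m) ^ (2 * r) := Nat.pow_le_pow_left hnm _
    _ = (4 * r) ^ (2 * r) * m ^ (2 * r) := by rw [mul_pow]
    _ ≤ (12 * r + 2) ^ (2 * r) * (K0 * (Nat.log 2 n + 1) ^ (4 * r ^ 2) * w ^ r * g *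
          (ℓ * q) ^ (4 * r)) := by
        apply Nat.mul_le_mul (Nat.pow_le_pow_left (by omega) _)
        refine h1.trans ?_
        gcongr
    _ = _ := by ring

end Pool.Agent.L5helper51.WH
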