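import Pool.Agent.L5helper51.WH.Halt

/-!
# No fixed-parameter bound
-/

namespace Pool.Agent.L5helper51.WH

open Finset
open Pool.Agent.L5helper51.WG (Mem Ins Alg Stp scan rd execs exists_ins ops ops_run ops_leaves
  ops_steps)
open Pool.Agent.L5helper58.KS (Trans Machine Config Step Halts Tab machineOf)

/-- The bound for wide instructions in the form used below. -/
theorem lower' (r k : ℕ) (hr : 2 ≤ r) (hk : (2 * r + 1) ^ 2 ≤ k + 2) :
    ∃ K : ℕ, ∀ n w ℓ g q : ℕ, 1 ≤ w → 1 ≤ g → 1 ≤ q → Decides k n w ℓ g q →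
      n ^ (2 * r) ≤ K * (Nat.log 2 n + 1) ^ (4 * r ^ 2) * ((ℓ * q) ^ 4 * w) ^ r * g := by
  obtain ⟨K, -, hK⟩ := lower r k hr hk
  refine ⟨K, fun n w ℓ g q hw hg hq hD => (hK n w ℓ g q hw hg hq hD).trans (le_of_eq ?_)⟩
  rw [mul_pow ((ℓ * q) ^ 4) w r, ← pow_mul (ℓ * q) 4 r]
  ring

theorem super (f : ℕ → ℕ) (d m k : ℕ) (hm : 1 ≤ m) (hk : (2 * m * (d + 2) + 1) ^ 2 ≤ k + 2) :
    ∃ n0 : ℕ, ∀ n ≥ n0, ∀ w ℓ g q : ℕ, 1 ≤ w → 1 ≤ g → 1 ≤ q →
      ((ℓ * q) ^ 4 * w) ^ m ≤ n ^ (2 * m - 1) → Decides k n w ℓ g q → f k * n ^ d < g := by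
  obtain ⟨r, hr⟩ : ∃ r, r = m * (d + 2) := ⟨_, rfl⟩
  have hr2 : 2 ≤ r := by
    rw [hr]
    nlinarith
  obtain ⟨K, hK⟩ := lower' r k hr2 (by
    have : 2 * r + 1 = 2 * m * (d + 2) + 1 := by rw [hr]; ring
    rw [this]
    exact hk)
  obtain ⟨n1, hn1⟩ := WF.log_small ((f k + 1) * K) (4 * r ^ 2)
  refine ⟨n1 + 1, fun n hn w ℓ g q hw hg hq hwm hD => ?_⟩
  have h1 := hK n w ℓ g q hw hg hq hD
  have h2 := hn1 n (by omega)
  have hnpos : 0 < n := by omega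
  have h3 : ((ℓ * q) ^ 4 * w) ^ r ≤ n ^ (2 * r - (d + 2)) := by
    calc ((ℓ * q) ^ 4 * w) ^ r = (((ℓ * q) ^ 4 * w) ^ m) ^ (d + 2) := by
          rw [hr, ← pow_mul]
      _ ≤ (n ^ (2 * m - 1)) ^ (d + 2) := Nat.pow_le_pow_left hwm _
      _ = n ^ ((2 * m - 1) * (d + 2)) := by rw [← pow_mul]
      _ = n ^ (2 * r - (d + 2)) := by
          congr 1
          rw [hr, Nat.sub_mul, one_mul]
          congr 1
          ring
  have h5 : d + 2 ≤ 2 * r := by
    rw [hr]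
    nlinarith
  have h6 : (f k + 1) * n ^ (2 * r) ≤ n * n ^ (2 * r - (d + 2)) * g := by
    calc (f k + 1) * n ^ (2 * r) ≤ (f k + 1) * (K * (Nat.log 2 n + 1) ^ (4 * r ^ 2) *
          ((ℓ * q) ^ 4 * w) ^ r * g) := Nat.mul_le_mul_left _ h1
      _ = ((f k + 1) * K * (Nat.log 2 n + 1) ^ (4 * r ^ 2)) * ((ℓ * q) ^ 4 * w) ^ r * g := by
          ring
      _ ≤ n * n ^ (2 * r - (d + 2)) * g :=
          Nat.mul_le_mul_right _ (Nat.mul_le_mul h2 h3)
  have e2 : n ^ (2 * r) = n ^ (2 * r - (d + 2)) * (n * n ^ (d + 1)) := by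
    rw [← pow_succ', ← pow_add]
    congr 1
    omega
  have h7 : (f k + 1) * n ^ (d + 1) ≤ g := by
    have h8 : (n ^ (2 * r - (d + 2)) * n) * ((f k + 1) * n ^ (d + 1)) ≤
        (n ^ (2 * r - (d + 2)) * n) * g := by
      calc _ = (f k + 1) * n ^ (2 * r) := by rw [e2]; ring
        _ ≤ _ := h6
        _ = _ := by ring
    exact Nat.le_of_mul_le_mul_left h8 (by positivity)
  have h8 : n ^ d ≤ n ^ (d + 1) := Nat.pow_le_pow_right hnpos (Nat.le_succ d)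
  have h9 : 0 < n ^ (d + 1) := by positivity
  calc f k * n ^ d ≤ f k * n ^ (d + 1) := Nat.mul_le_mul_left _ h8
    _ < (f k + 1) * n ^ (d + 1) := by
        rw [Nat.add_mul, one_mul]
        omega
    _ ≤ g := h7

/-- Machines with few registers. -/
theorem scan_super (f : ℕ → ℕ) (d m k : ℕ) (hm : 1 ≤ m)
    (hk : (4 * m * (d + 2) + 1) ^ 2 ≤ k + 2) :
    ∃ n0 : ℕ, ∀ n ≥ n0, ∀ R T : ℕ, ∀ hR : 0 < R, R ^ m ≤ n ^ (2 * m - 1) →
      ∀ l : List (Stp (Tab n) R), l.length ≤ T → ∀ (s0 : Fin R → ℝ) (θ : ℝ),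
        (∀ x : Tab n → Bool, Right k x (decide (θ ≤ scan (val x) l s0 ⟨0, hR⟩))) →
        f k * n ^ d < T := by
  classical
  obtain ⟨n0, hn0⟩ := super (fun i => f i + 1) d (2 * m) k (by omega) (by
    have : 2 * (2 * m) * (d + 2) + 1 = 4 * m * (d + 2) + 1 := by ring
    rw [this]
    exact hk)
  refine ⟨n0 + 4 ^ (12 * m), fun n hn R T hR hRm l hT s0 θ hcorr => ?_⟩
  have hnpos : 0 < n := by
    have : 0 < 4 ^ (12 * m) := by positivity
    omega
  obtain ⟨b, hb⟩ : ∃ b, b = Nat.sqrt R + 1 := ⟨_, rfl⟩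
  have hb0 : 0 < b := by omega
  have hRb : R ≤ b ^ 2 := by
    have := Nat.sqrt_lt.1 (show Nat.sqrt R < b by omega)
    rw [pow_two]
    omega
  have hbR : b ^ 2 ≤ 4 * R := by
    have h1 := Nat.sqrt_le R
    have h2 : 1 ≤ Nat.sqrt R := Nat.sqrt_pos.2 hR
    rw [hb]
    nlinarith
  obtain ⟨W, hW, h⟩ := exists_ins (K := Tab n) hb0 hRb (T / b ^ 2 + 1) l (by
    have h1 := Nat.div_add_mod T (b ^ 2)
    have h2 := Nat.mod_lt T (show 0 < b ^ 2 by positivity)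
    have h3 : (T / b ^ 2 + 1) * b ^ 2 = b ^ 2 * (T / b ^ 2) + b ^ 2 := by ring
    omega)
  set σ0 : Mem (4 * b ^ 2) := fun _ i => if h : i.val < R then s0 ⟨i.val, h⟩ else 0 with hσ0
  set A : Alg (Tab n) (4 * b ^ 2) Bool :=
    ops W (.test (.inr (0, ⟨0, by positivity⟩)) θ (.leaf false) (.leaf true)) with hA
  have hrun : ∀ x : Tab n → Bool, Right k x (A.run (val x) σ0).1 := by
    intro x
    have c1 := hcorr x
    rw [hA, ops_run, Alg.run]
    have h1 := h (val x) σ0 s0 (fun i => by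
      rw [hσ0]
      simp) ⟨0, hR⟩
    have h2 : rd (val x) (execs (val x) W σ0) (.inr (0, ⟨0, by positivity⟩)) =
        scan (val x) l s0 ⟨0, hR⟩ := h1
    rw [h2]
    by_cases h3 : scan (val x) l s0 ⟨0, hR⟩ < θ
    · rw [if_pos h3, Alg.run]
      rw [decide_eq_false (not_le.2 h3)] at c1
      exact c1
    · rw [if_neg h3, Alg.run]
      rw [decide_eq_true (not_lt.1 h3)] at c1
      exact c1
  have hD : Decides k n (4 * b ^ 2) 2 (T / b ^ 2 + 1) 2 := by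
    refine ⟨Unit, inferInstance, fun _ => 1, fun _ => A, fun _ => σ0, fun _ => zero_le_one,
      by simp, fun _ => ⟨?_, ?_⟩, fun x => ?_⟩
    · rw [hA, ops_leaves]
      simp [Alg.leaves]
    · rw [hA, ops_steps, hW]
      simp [Alg.steps]
    · have h2 : univ.filter (fun _ : Unit => Right k x (A.run (val x) σ0).1) = univ := by
        apply filter_true_of_mem
        intro _ _
        exact hrun x
      rw [h2]
      norm_num
  have h1 := hn0 n (le_trans (Nat.le_add_right _ _) hn) (4 * b ^ 2) 2 (T / b ^ 2 + 1) 2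
    (by nlinarith) (Nat.le_add_left 1 _) (by norm_num) (by
      calc ((2 * 2) ^ 4 * (4 * b ^ 2)) ^ (2 * m) ≤ (4096 * R) ^ (2 * m) :=
            Nat.pow_le_pow_left (by omega) _
        _ = 4096 ^ (2 * m) * (R ^ m) ^ 2 := by
            rw [mul_pow]
            congr 1
            rw [← pow_mul]
            congr 1
            ring
        _ ≤ n * (n ^ (2 * m - 1)) ^ 2 := by
            apply Nat.mul_le_mul _ (Nat.pow_le_pow_left hRm 2)
            have e : (4096 : ℕ) ^ (2 * m) = 4 ^ (12 * m) := by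
              rw [show (4096 : ℕ) = 4 ^ 6 by norm_num, ← pow_mul]
              congr 1
              ring
            rw [e]
            exact le_trans (Nat.le_add_left _ _) hn
        _ = n ^ (2 * (2 * m) - 1) := by
            rw [← pow_mul, ← pow_succ']
            congr 1
            omega) hD
  have h2 : T / b ^ 2 ≤ T := Nat.div_le_self _ _
  have h3 : 0 < n ^ d := by positivity
  have h4 : (f k + 1) * n ^ d = f k * n ^ d + n ^ d := by ring
  omega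

/-- Both bounds for all large `k` and then all large `n`. -/
theorem not_fpt (f : ℕ → ℕ) (d m : ℕ) (hm : 1 ≤ m) : ∃ k0 : ℕ, ∀ k ≥ k0, ∃ n0 : ℕ, ∀ n ≥ n0,
    (∀ w ℓ g q : ℕ, 1 ≤ w → 1 ≤ g → 1 ≤ q → ((ℓ * q) ^ 4 * w) ^ m ≤ n ^ (2 * m - 1) →
      Decides k n w ℓ g q → f k * n ^ d < g) ∧
    (∀ R T : ℕ, ∀ hR : 0 < R, R ^ m ≤ n ^ (2 * m - 1) →
      ∀ l : List (Stp (Tab n) R), l.length ≤ T → ∀ (s0 : Fin R → ℝ) (θ : ℝ),
        (∀ x : Tab n → Bool, Right k x (decide (θ ≤ scan (val x) l s0 ⟨0, hR⟩))) →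
        f k * n ^ d < T) := by
  refine ⟨(4 * m * (d + 2) + 1) ^ 2, fun k hk => ?_⟩
  obtain ⟨n1, h1⟩ := super f d m k hm (by
    have : (2 * m * (d + 2) + 1) ^ 2 ≤ (4 * m * (d + 2) + 1) ^ 2 := by gcongr; omega
    omega)
  obtain ⟨n2, h2⟩ := scan_super f d m k hm (by omega)
  exact ⟨max n1 n2, fun n hn => ⟨h1 n (le_trans (le_max_left _ _) hn),
    h2 n (le_trans (le_max_right _ _) hn)⟩⟩

end Pool.Agent.L5helper51.WH
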